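import Mathlib

/-!
# P_A2, local computation
-/

set_option autoImplicit false

namespace Pool.Agent.W2helper14.TQ

open WithZero
open scoped WithZero

lemma ltle {t : ℤᵐ⁰} {n : ℤ} (h : t < exp n) : t ≤ exp (n - 1) := by
  rcases eq_or_ne t 0 with rfl | h0
  · exact zero_le
  · obtain ⟨m, rfl⟩ : ∃ m : ℤ, t = exp m := ⟨log t, (exp_log h0).symm⟩
    rw [exp_lt_exp] at h
    rw [exp_le_exp]
    omega

lemma lt1 {t : ℤᵐ⁰} (h : t < 1) : t ≤ exp (-1) := by
  have := ltle (t := t) (n := 0) (by simpa using h)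
  simpa using this

lemma exp_neg_lt {n : ℤ} (hn : n < 0) : (exp n : ℤᵐ⁰) < 1 := by
  rw [← exp_zero, exp_lt_exp]; exact hn

section
variable {M : Type} [Field M] (v : Valuation M ℤᵐ⁰)

lemma sub_pow_le {a b : M} (ha : v a ≤ 1) (hb : v b ≤ 1) (n : ℕ) : v (a ^ n - b ^ n) ≤ v (a - b) := by
  induction n with
  | zero => simp
  | succ n ih =>
    have e : a ^ (n + 1) - b ^ (n + 1) = a * (a ^ n - b ^ n) + (a - b) * b ^ n := by ring
    rw [e]
    refine v.map_add_le ?_ ?_
    · rw [map_mul]
      calc v a * v (a ^ n - b ^ n) ≤ 1 * v (a - b) := mul_le_mul' ha ih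
        _ = _ := one_mul _
    · rw [map_mul, map_pow]
      calc v (a - b) * v b ^ n ≤ v (a - b) * 1 := by
            gcongr
            exact pow_le_one₀ (by simp) hb
        _ = _ := mul_one _

lemma v_add_le1 {a b : M} (ha : v a ≤ 1) (hb : v b ≤ 1) : v (a + b) ≤ 1 := v.map_add_le ha hb

/-- the cube of a one-unit -/
lemma cube3 (h3 : v 3 = exp (-2)) {s : M} (hs : v s < 1) : v ((1 + s) ^ 3 - 1) ≤ exp (-3) := by
  have hs1 := lt1 hs
  have e : (1 + s) ^ 3 - 1 = s ^ 3 + 3 * s * (s + 1) := by ring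
  rw [e]
  refine v.map_add_le ?_ ?_
  · rw [map_pow]
    calc v s ^ 3 ≤ (exp (-1)) ^ 3 := by gcongr
      _ = exp (-3) := by rw [← exp_nsmul]; rfl
  · rw [map_mul, map_mul, h3]
    have : v (s + 1) ≤ 1 := v_add_le1 v hs.le (by rw [map_one])
    calc exp (-2) * v s * v (s + 1) ≤ exp (-2) * exp (-1) * 1 := by gcongr
      _ = exp (-3) := by rw [mul_one, ← exp_add]; rfl

variable {v}

lemma loc_mul {a b : M} {g : ℤᵐ⁰} (ha : v a ≤ 1) (h1 : v (a - 1) ≤ g) (h2 : v (b - 1) ≤ g) :
    v (a * b - 1) ≤ g := by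
  have e : a * b - 1 = a * (b - 1) + (a - 1) := by ring
  rw [e]
  refine v.map_add_le ?_ h1
  rw [map_mul]
  calc v a * v (b - 1) ≤ 1 * g := mul_le_mul' ha h2
    _ = g := one_mul _

lemma loc_inv {a : M} {g : ℤᵐ⁰} (ha : v a = 1) (h1 : v (a - 1) ≤ g) : v (a⁻¹ - 1) ≤ g := by
  have ha0 : a ≠ 0 := by
    rintro rfl
    rw [map_zero] at ha
    exact zero_ne_one ha
  have e : a⁻¹ - 1 = -((a - 1) * a⁻¹) := by field_simp; ring
  rw [e, Valuation.map_neg, map_mul, map_inv₀, ha, inv_one, mul_one]
  exact h1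

/-- the additivity of the powers of three modulo `3` -/
lemma frob3 {a b : M} (h3 : v 3 ≤ 1) (ha : v a ≤ 1) (hb : v b ≤ 1) (r : ℕ) :
    v ((a + b) ^ (3 ^ r) - (a ^ (3 ^ r) + b ^ (3 ^ r))) ≤ v 3 := by
  induction r with
  | zero => simp
  | succ r ih =>
    set A := a ^ (3 ^ r) with hA
    set B := b ^ (3 ^ r) with hB
    set C := (a + b) ^ (3 ^ r) with hC
    have hA1 : v A ≤ 1 := by rw [hA, map_pow]; exact pow_le_one₀ (by simp) ha
    have hB1 : v B ≤ 1 := by rw [hB, map_pow]; exact pow_le_one₀ (by simp) hb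
    have hC1 : v C ≤ 1 := by rw [hC, map_pow]; exact pow_le_one₀ (by simp) (v_add_le1 v ha hb)
    have e1 : (a + b) ^ (3 ^ (r + 1)) = C ^ 3 := by rw [hC, ← pow_mul, pow_succ]
    have e2 : a ^ (3 ^ (r + 1)) = A ^ 3 := by rw [hA, ← pow_mul, pow_succ]
    have e3 : b ^ (3 ^ (r + 1)) = B ^ 3 := by rw [hB, ← pow_mul, pow_succ]
    rw [e1, e2, e3]
    have e : C ^ 3 - (A ^ 3 + B ^ 3) = (C ^ 3 - (A + B) ^ 3) + 3 * (A * B * (A + B)) := by ring
    rw [e]
    refine v.map_add_le ((sub_pow_le v hC1 (v_add_le1 v hA1 hB1) 3).trans ih) ?_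
    rw [map_mul]
    have : v (A * B * (A + B)) ≤ 1 := by
      rw [map_mul, map_mul]
      have := v_add_le1 v hA1 hB1
      calc v A * v B * v (A + B) ≤ 1 * 1 * 1 := by gcongr
        _ = 1 := by simp
    calc v 3 * v (A * B * (A + B)) ≤ v 3 * 1 := by gcongr
      _ = v 3 := mul_one _

lemma v_one_of_cube {u : M} (h : v u ^ 3 = 1) : v u = 1 :=
  (pow_eq_one_iff_of_nonneg (by simp) (by norm_num)).1 h

variable {i : M} {r : ℕ}

/-- the local hypotheses -/
structure LH (v : Valuation M ℤᵐ⁰) (i : M) (r : ℕ) : Prop where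
  h3 : v 3 = exp (-2)
  hi : i ^ 2 = -1
  hF : ∀ u : M, v u = 1 → v (u ^ (3 ^ r - 1) - 1) < 1

namespace LH

variable (H : LH v i r)
include H

lemma v31 : v 3 < 1 := by rw [H.h3]; exact exp_neg_lt (by norm_num)

lemma v2 : v 2 = 1 := by
  have h1 : v (2 : M) ≤ 1 := by
    have : (2 : M) = 1 + 1 := by norm_num
    rw [this]; exact v_add_le1 v (by rw [map_one]) (by rw [map_one])
  by_contra hne
  have h2 : v (2 : M) < 1 := lt_of_le_of_ne h1 hne
  have h3 : v (1 : M) < 1 := by
    have : (1 : M) = 3 - 2 := by norm_num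
    rw [this]
    exact v.map_sub_lt H.v31 h2
  rw [map_one] at h3
  exact lt_irrefl _ h3

lemma vi : v i = 1 := by
  have h := congrArg v H.hi
  rw [map_pow, Valuation.map_neg, map_one] at h
  exact (pow_eq_one_iff_of_nonneg (by simp) (by norm_num)).1 h

lemma v2i : v (2 * i) = 1 := by rw [map_mul, H.v2, H.vi, mul_one]

lemma even : ∃ m : ℕ, 3 ^ r - 1 = 2 * m ∧ ((-1 : M)) ^ m = 1 := by
  have hodd : Odd (3 ^ r) := Odd.pow (by decide)
  obtain ⟨m, hm⟩ := hodd
  refine ⟨m, by omega, ?_⟩
  have h1 := H.hF i H.vi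
  have e : i ^ (3 ^ r - 1) = (-1) ^ m := by
    rw [hm, Nat.add_sub_cancel, pow_mul, H.hi]
  rw [e] at h1
  rcases neg_one_pow_eq_or M m with h | h
  · exact h
  · rw [h] at h1
    have : (-1 - 1 : M) = -2 := by norm_num
    rw [this, Valuation.map_neg, H.v2] at h1
    exact absurd h1 (lt_irrefl _)

lemma loc_i : i ^ (3 ^ r - 1) = 1 := by
  obtain ⟨m, hm, h⟩ := H.even
  rw [hm, pow_mul, H.hi, h]

lemma loc_ni : (-i) ^ (3 ^ r - 1) = 1 := by
  obtain ⟨m, hm, h⟩ := H.even
  rw [hm, pow_mul, neg_sq, H.hi, h]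

lemma loc_2i : v ((2 * i) ^ (3 ^ r - 1) - 1) ≤ v 3 := by
  obtain ⟨m, hm, h⟩ := H.even
  have e : (2 * i) ^ (3 ^ r - 1) - 1 = (4 : M) ^ m - 1 ^ m := by
    rw [hm, pow_mul, mul_pow, H.hi, one_pow]
    have : (2 : M) ^ 2 * -1 = (-1) * 4 := by norm_num
    rw [this, mul_pow, h, one_mul]
  rw [e]
  have h4 : v (4 : M) ≤ 1 := by
    have : (4 : M) = 2 * 2 := by norm_num
    rw [this, map_mul, H.v2, mul_one]
  have := sub_pow_le v h4 (b := 1) (by rw [map_one]) m
  have e2 : (4 : M) - 1 = 3 := by norm_num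
  rwa [e2] at this

lemma loc_n2i : v ((-(2 * i)) ^ (3 ^ r - 1) - 1) ≤ v 3 := by
  obtain ⟨m, hm, h⟩ := H.even
  have := H.loc_2i
  rw [hm] at this ⊢
  rwa [neg_pow, Even.neg_one_pow (even_two_mul m), one_mul]

lemma loc_near {a b : M} (ha : v a ≤ 1) (hb : v b ≤ 1) (hab : v (a - b) ≤ v 3)
    (h : v (b ^ (3 ^ r - 1) - 1) ≤ v 3) : v (a ^ (3 ^ r - 1) - 1) ≤ v 3 := by
  have e : a ^ (3 ^ r - 1) - 1 = (a ^ (3 ^ r - 1) - b ^ (3 ^ r - 1)) + (b ^ (3 ^ r - 1) - 1) := by ring
  rw [e]
  exact v.map_add_le ((sub_pow_le v ha hb _).trans hab) h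

lemma loc_cube {u : M} (hu : v u = 1) : v ((u ^ 3) ^ (3 ^ r - 1) - 1) ≤ exp (-3) := by
  have h1 := H.hF u hu
  have h2 := cube3 v H.h3 h1
  have e : (u ^ 3) ^ (3 ^ r - 1) = (1 + (u ^ (3 ^ r - 1) - 1)) ^ 3 := by
    rw [add_sub_cancel, ← pow_mul, ← pow_mul, mul_comm]
  rw [e]
  exact h2

/-- it is enough to consider one `a` -/
lemma indep {z a₀ : M} (h0 : v (z * a₀ ^ 3) = 1) (h1 : v ((z * a₀ ^ 3) ^ (3 ^ r - 1) - 1) ≤ v 3)
    (a : M) (ha : v (z * a ^ 3) = 1) : v ((z * a ^ 3) ^ (3 ^ r - 1) - 1) ≤ v 3 := by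
  have hz : z ≠ 0 := by rintro rfl; rw [zero_mul, map_zero] at ha; exact zero_ne_one ha
  have ha0 : a ≠ 0 := by
    rintro rfl
    rw [zero_pow (by norm_num), mul_zero, map_zero] at ha; exact zero_ne_one ha
  have ha00 : a₀ ≠ 0 := by
    rintro rfl
    rw [zero_pow (by norm_num), mul_zero, map_zero] at h0; exact zero_ne_one h0
  have e : z * a ^ 3 = (z * a₀ ^ 3) * (a / a₀) ^ 3 := by field_simp
  have hu : v (a / a₀) = 1 := by
    apply v_one_of_cube
    rw [e, map_mul, h0, one_mul, map_pow] at ha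
    exact ha
  rw [e, mul_pow]
  refine loc_mul ?_ h1 ?_
  · rw [map_pow, h0, one_pow]
  · refine (H.loc_cube hu).trans ?_
    rw [H.h3, exp_le_exp]
    norm_num

end LH

/-- the local condition at a prime above `3` -/
theorem core (H : LH v i r) {X Y : M} (hXY : Y ^ 2 = X ^ 3 - 1) (hne : Y ≠ i) (a : M)
    (ha : v ((Y - i) * a ^ 3) = 1) : v (((Y - i) * a ^ 3) ^ (3 ^ r - 1) - 1) ≤ v 3 := by
  have hz : Y - i ≠ 0 := sub_ne_zero.2 hne
  have hprod : (Y - i) * (Y + i) = X ^ 3 := by linear_combination hXY - H.hi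
  have h3e : v (3 : M) = exp (-2) := H.h3
  have le3 : ∀ {t : ℤᵐ⁰}, t ≤ exp (-3) → t ≤ v (3 : M) := by
    intro t ht
    rw [h3e]
    refine ht.trans ?_
    rw [exp_le_exp]; norm_num
  suffices hs : ∃ a₀ : M, v ((Y - i) * a₀ ^ 3) = 1 ∧
      v (((Y - i) * a₀ ^ 3) ^ (3 ^ r - 1) - 1) ≤ v 3 by
    obtain ⟨a₀, h0, h1⟩ := hs
    exact H.indep h0 h1 a ha
  by_cases hY : 1 < v Y
  · -- `Y` is not integral
    have hY0 : Y ≠ 0 := by
      rintro rfl
      rw [map_zero] at hY
      exact absurd hY (by simp)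
    have hY2 : v Y ^ 2 = v X ^ 3 := by
      have h1 : v (Y ^ 2 + 1) = v (Y ^ 2) := by
        apply v.map_add_eq_of_lt_left
        rw [map_one, map_pow]
        exact one_lt_pow₀ hY (by norm_num)
      have h2 : Y ^ 2 + 1 = X ^ 3 := by linear_combination hXY
      rw [h2, map_pow, map_pow] at h1
      exact h1.symm
    have hX0 : X ≠ 0 := by
      rintro rfl
      rw [map_zero] at hY2
      have : v Y ^ 2 = 0 := by rw [hY2]; simp
      exact hY0 ((map_eq_zero v).1 (pow_eq_zero_iff (by norm_num) |>.1 this))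
    obtain ⟨m, hm⟩ : ∃ m : ℤ, v Y = exp m := ⟨log (v Y), (exp_log (by simpa using hY0)).symm⟩
    obtain ⟨n, hn⟩ : ∃ n : ℤ, v X = exp n := ⟨log (v X), (exp_log (by simpa using hX0)).symm⟩
    have hm3 : 3 ≤ m := by
      rw [hm, hn, ← exp_nsmul, ← exp_nsmul] at hY2
      have h1 := exp_injective hY2
      simp only [nsmul_eq_mul] at h1
      push_cast at h1
      rw [hm, ← exp_zero, exp_lt_exp] at hY
      omega
    have ht : v (Y⁻¹) ≤ exp (-3) := by
      rw [map_inv₀, hm, ← exp_neg, exp_le_exp]; omega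
    have ht1 : v (Y⁻¹) ≤ 1 := ht.trans (exp_neg_lt (by norm_num)).le
    have e : (Y - i) * (X / Y) ^ 3 = (1 + -(i * Y⁻¹)) * (1 + Y⁻¹ * Y⁻¹) := by
      have : X ^ 3 = Y ^ 2 + 1 := by linear_combination -hXY
      rw [div_pow, this]
      field_simp
      ring
    have h1 : v ((Y - i) * (X / Y) ^ 3 - 1) ≤ exp (-3) := by
      rw [e]
      refine loc_mul ?_ ?_ ?_
      · refine v_add_le1 v (by rw [map_one]) ?_
        rw [Valuation.map_neg, map_mul, H.vi, one_mul]; exact ht1
      · rw [add_sub_cancel_left, Valuation.map_neg, map_mul, H.vi, one_mul]; exact ht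
      · rw [add_sub_cancel_left, map_mul]
        calc v Y⁻¹ * v Y⁻¹ ≤ exp (-3) * 1 := by gcongr
          _ = exp (-3) := mul_one _
    have h2 : v ((Y - i) * (X / Y) ^ 3) = 1 := by
      have h3 : v (((Y - i) * (X / Y) ^ 3 - 1) + 1) = v (1 : M) := by
        apply v.map_add_eq_of_lt_right
        rw [map_one]
        exact h1.trans_lt (exp_neg_lt (by norm_num))
      rwa [sub_add_cancel, map_one] at h3
    refine ⟨X / Y, h2, ?_⟩
    have h3 := sub_pow_le v h2.le (b := 1) (by rw [map_one]) (3 ^ r - 1)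
    rw [one_pow] at h3
    exact h3.trans (le3 h1)
  · push Not at hY
    have vz : v (Y - i) ≤ 1 := by
      rw [sub_eq_add_neg]
      exact v_add_le1 v hY (by rw [Valuation.map_neg, H.vi])
    have vz' : v (Y + i) ≤ 1 := v_add_le1 v hY H.vi.le
    -- a cube that is not a unit is small
    have small : ∀ {t : M}, v t < 1 → v t = v X ^ 3 → v t ≤ exp (-3) := by
      intro t ht htX
      have hX1 : v X < 1 := by
        by_contra hcon
        push Not at hcon
        have : (1 : ℤᵐ⁰) ≤ v X ^ 3 := one_le_pow₀ hcon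
        rw [← htX] at this
        exact absurd ht (not_lt.2 this)
      rw [htX]
      calc v X ^ 3 ≤ (exp (-1)) ^ 3 := by gcongr; exact lt1 hX1
        _ = exp (-3) := by rw [← exp_nsmul]; rfl
    rcases lt_or_eq_of_le vz with hz1 | hz1
    · -- `v(z) < 1`
      have hz' : v (Y + i) = 1 := by
        have e : Y + i = (Y - i) + 2 * i := by ring
        rw [e, v.map_add_eq_of_lt_right (by rw [H.v2i]; exact hz1), H.v2i]
      have hvX : v (Y - i) = v X ^ 3 := by
        rw [← map_pow, ← hprod, map_mul, hz', mul_one]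
      have hX0 : X ≠ 0 := by
        rintro rfl
        rw [map_zero, zero_pow (by norm_num)] at hvX
        exact hz ((map_eq_zero v).1 hvX)
      have hsm := small hz1 hvX
      have hz'0 : Y + i ≠ 0 := by
        intro h
        rw [h, map_zero] at hz'
        exact zero_ne_one hz'
      have e : (Y - i) * X⁻¹ ^ 3 = (Y + i)⁻¹ := by
        rw [inv_pow, ← hprod]
        field_simp
      refine ⟨X⁻¹, ?_, ?_⟩
      · rw [e, map_inv₀, hz', inv_one]
      · rw [e, inv_pow]
        refine loc_inv (by rw [map_pow, hz', one_pow]) ?_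
        refine H.loc_near hz'.le H.v2i.le ?_ H.loc_2i
        have e2 : Y + i - 2 * i = Y - i := by ring
        rw [e2]
        exact le3 hsm
    · rcases lt_or_eq_of_le vz' with hz1' | hz1'
      · have hvX : v (Y + i) = v X ^ 3 := by
          rw [← map_pow, ← hprod, map_mul, hz1, one_mul]
        have hsm := small hz1' hvX
        refine ⟨1, by rw [one_pow, mul_one, hz1], ?_⟩
        rw [one_pow, mul_one]
        refine H.loc_near hz1.le (by rw [Valuation.map_neg, H.v2i]) ?_ H.loc_n2i
        have e2 : Y - i - -(2 * i) = Y + i := by ring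
        rw [e2]
        exact le3 hsm
      · -- both are units
        have hX1 : v X = 1 := by
          apply v_one_of_cube
          rw [← map_pow, ← hprod, map_mul, hz1, hz1', one_mul]
        refine ⟨1, by rw [one_pow, mul_one, hz1], ?_⟩
        rw [one_pow, mul_one]
        rcases lt_or_eq_of_le hY with hY1 | hY1
        · -- `v(Y) < 1`
          have hYm := lt1 hY1
          have hX3 : v (X ^ 3 - 1) = v Y ^ 2 := by
            rw [← map_pow, hXY]
          -- `v(X - 1) < 1`
          have hs : v (X - 1) < 1 := by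
            by_contra hcon
            push Not at hcon
            have hs1 : v (X - 1) ≤ 1 := by
              rw [sub_eq_add_neg]
              exact v_add_le1 v hX1.le (by rw [Valuation.map_neg, map_one])
            have hs2 : v (X - 1) = 1 := le_antisymm hs1 hcon
            have e : (X - 1) ^ 3 = (X ^ 3 - 1) + -(3 * (X * (X - 1))) := by ring
            have h1 : v ((X - 1) ^ 3) < 1 := by
              rw [e]
              refine v.map_add_lt ?_ ?_
              · rw [hX3]
                exact pow_lt_one₀ (by simp) hY1 (by norm_num)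
              · rw [Valuation.map_neg, map_mul, map_mul, hX1, hs2, mul_one, mul_one]
                exact H.v31
            rw [map_pow, hs2, one_pow] at h1
            exact lt_irrefl _ h1
          have h1 := cube3 v H.h3 hs
          rw [add_sub_cancel, hX3] at h1
          -- so `v(Y) ≤ exp (-2)`
          have hY2 : v Y ≤ v 3 := by
            rw [h3e]
            by_cases hY0 : Y = 0
            · rw [hY0, map_zero]; exact zero_le
            obtain ⟨m, hm⟩ : ∃ m : ℤ, v Y = exp m := ⟨log (v Y), (exp_log (by simpa using hY0)).symm⟩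
            rw [hm, ← exp_nsmul, exp_le_exp] at h1
            rw [hm, exp_le_exp]
            simp only [nsmul_eq_mul] at h1
            push_cast at h1
            omega
          refine H.loc_near hz1.le (b := -i) (by rw [Valuation.map_neg, H.vi]) ?_ ?_
          · have e : Y - i - -i = Y := by ring
            rw [e]; exact hY2
          · rw [H.loc_ni, sub_self, map_zero]; exact zero_le
        · -- `v(Y) = 1`
          set q := 3 ^ r with hq
          have hq1 : 1 ≤ q := Nat.one_le_pow _ _ (by norm_num)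
          set z := Y - i with hzdef
          set z' := Y + i with hz'def
          have hα := H.hF z hz1
          have hβ := H.hF z' hz1'
          rw [← hq] at hα hβ
          set α := z ^ (q - 1) - 1 with hαdef
          set β := z' ^ (q - 1) - 1 with hβdef
          have hα1 := lt1 hα
          have hβ1 := lt1 hβ
          -- the product
          have hp1 : (1 + α) * (1 + β) = (X ^ 3) ^ (q - 1) := by
            rw [hαdef, hβdef, add_sub_cancel, add_sub_cancel, ← mul_pow, hprod]
          have hp2 : v ((1 + α) * (1 + β) - 1) ≤ exp (-3) := by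
            rw [hp1]; exact H.loc_cube hX1
          have hab : v (α + β) ≤ v 3 := by
            have e : α + β = ((1 + α) * (1 + β) - 1) + -(α * β) := by ring
            rw [e]
            refine v.map_add_le (le3 hp2) ?_
            rw [Valuation.map_neg, map_mul, h3e]
            calc v α * v β ≤ exp (-1) * exp (-1) := by gcongr
              _ = exp (-2) := by rw [← exp_add]; rfl
          -- Frobenius
          have hz'e : z' = z + 2 * i := by rw [hzdef, hz'def]; ring
          have hfr := frob3 (v := v) H.v31.le hz1.le H.v2i.le r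
          rw [← hz'e, ← hq] at hfr
          have hzq : z ^ q = z * (1 + α) := by
            rw [hαdef, add_sub_cancel, ← pow_succ', Nat.sub_add_cancel hq1]
          have hz'q : z' ^ q = z' * (1 + β) := by
            rw [hβdef, add_sub_cancel, ← pow_succ', Nat.sub_add_cancel hq1]
          have h2q : (2 * i) ^ q = (2 * i) + (2 * i) * ((2 * i) ^ (q - 1) - 1) := by
            rw [mul_sub, mul_one, add_sub_cancel, ← pow_succ', Nat.sub_add_cancel hq1]
          have h2i := H.loc_2i
          rw [← hq] at h2i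
          set γ := (2 * i) ^ (q - 1) - 1 with hγ
          rw [hzq, hz'q, h2q] at hfr
          have h5 : v (z' * β - z * α) ≤ v 3 := by
            have e : z' * β - z * α =
                (z' * (1 + β) - (z * (1 + α) + (2 * i + 2 * i * γ))) + (2 * i) * γ := by
              rw [hz'e]; ring
            rw [e]
            refine v.map_add_le hfr ?_
            rw [map_mul, H.v2i, one_mul]
            exact h2i
          have h6 : v (2 * Y * α) ≤ v 3 := by
            have e : 2 * Y * α = z' * (α + β) + -(z' * β - z * α) := by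
              rw [hzdef, hz'def]; ring
            rw [e]
            refine v.map_add_le ?_ (by rw [Valuation.map_neg]; exact h5)
            rw [map_mul, hz1', one_mul]
            exact hab
          rwa [map_mul, map_mul, H.v2, hY1, one_mul, one_mul] at h6

end

end Pool.Agent.W2helper14.TQ
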