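import Pool.Agent.W2helper24.TQ.Stm
import Pool.Agent.W2helper14.TQ.A2Core

/-!
# P_A2: the local conditions of the points
-/

set_option autoImplicit false

namespace Pool.Agent.W2helper14.TQ

open NumberField IsDedekindDomain WithZero
open scoped WithZero
open Pool.Agent.W2helper24.TQ

/-- the theorem of Fermat -/
lemma fermat {M : Type} [Field M] [NumberField M] (w : HeightOneSpectrum (𝓞 M)) (u : M)
    (hu : w.valuation M u = 1) :
    w.valuation M (u ^ (Nat.card (𝓞 M ⧸ w.asIdeal) - 1) - 1) < 1 := by
  obtain ⟨a, ha⟩ := w.exists_valuation_sub_lt_of_integer hu.le 1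
  rw [Units.val_one] at ha
  have hva : w.valuation M (algebraMap (𝓞 M) M a) = 1 := by
    have e : algebraMap (𝓞 M) M a = (algebraMap (𝓞 M) M a - u) + u := by ring
    rw [e, (w.valuation M).map_add_eq_of_lt_right (by rw [hu]; exact ha), hu]
  have hmem : a ∉ w.asIdeal := by
    intro h
    have := (HeightOneSpectrum.valuation_lt_one_iff_mem (K := M) w a).2 h
    rw [hva] at this
    exact lt_irrefl _ this
  haveI : w.asIdeal.IsMaximal := w.isMaximal
  letI : Field (𝓞 M ⧸ w.asIdeal) := Ideal.Quotient.field w.asIdeal
  haveI : Finite (𝓞 M ⧸ w.asIdeal) := Ideal.finiteQuotientOfFreeOfNeBot _ w.ne_bot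
  letI : Fintype (𝓞 M ⧸ w.asIdeal) := Fintype.ofFinite _
  have hne : (Ideal.Quotient.mk w.asIdeal a) ≠ 0 := by
    rwa [Ne, Ideal.Quotient.eq_zero_iff_mem]
  have h1 := FiniteField.pow_card_sub_one_eq_one _ hne
  rw [← Nat.card_eq_fintype_card] at h1
  set n := Nat.card (𝓞 M ⧸ w.asIdeal) - 1 with hn
  have h2 : a ^ n - 1 ∈ w.asIdeal := by
    rw [← Ideal.Quotient.eq_zero_iff_mem, map_sub, map_pow, map_one, h1, sub_self]
  have h3 : w.valuation M (algebraMap (𝓞 M) M a ^ n - 1) < 1 := by
    have : w.valuation M (algebraMap (𝓞 M) M (a ^ n - 1)) < 1 :=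
      (HeightOneSpectrum.valuation_lt_one_iff_mem (K := M) w (a ^ n - 1)).2 h2
    rwa [map_sub, map_pow, map_one] at this
  have e : u ^ n - 1 = (u ^ n - algebraMap (𝓞 M) M a ^ n) + (algebraMap (𝓞 M) M a ^ n - 1) := by ring
  rw [e]
  refine (w.valuation M).map_add_lt ?_ h3
  refine (sub_pow_le (w.valuation M) hu.le hva.le n).trans_lt ?_
  rw [Valuation.map_sub_swap]
  exact ha

lemma card_three {M : Type} [Field M] [NumberField M] (w : HeightOneSpectrum (𝓞 M))
    (h3 : (3 : 𝓞 M) ∈ w.asIdeal) : ∃ r : ℕ, Nat.card (𝓞 M ⧸ w.asIdeal) = 3 ^ r := by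
  haveI : w.asIdeal.IsMaximal := w.isMaximal
  letI : Field (𝓞 M ⧸ w.asIdeal) := Ideal.Quotient.field w.asIdeal
  haveI : Finite (𝓞 M ⧸ w.asIdeal) := Ideal.finiteQuotientOfFreeOfNeBot _ w.ne_bot
  letI : Fintype (𝓞 M ⧸ w.asIdeal) := Fintype.ofFinite _
  haveI : Fact (Nat.Prime 3) := ⟨by norm_num⟩
  haveI : CharP (𝓞 M ⧸ w.asIdeal) 3 := by
    have h : ((3 : ℕ) : 𝓞 M ⧸ w.asIdeal) = 0 := by
      have := Ideal.Quotient.eq_zero_iff_mem.2 h3
      rw [← this, map_ofNat]
      rfl
    exact ringChar.of_eq (CharP.ringChar_of_prime_eq_zero (by norm_num) h)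
  obtain ⟨n, -, hn⟩ := FiniteField.card (𝓞 M ⧸ w.asIdeal) 3
  exact ⟨n, by rw [Nat.card_eq_fintype_card, hn]⟩

theorem piece : P_A2 := by
  intro F F' _ _ _ _ _ i θ hi hθ h2 h3 hne x y hxy
  set X := algebraMap F F' x with hX
  set Y := algebraMap F F' y with hY
  have hXY : Y ^ 2 = X ^ 3 - 1 := by
    rw [hX, hY, ← map_pow, hxy, map_sub, map_pow, map_one]
  have hz : Y - i ≠ 0 := sub_ne_zero.2 (hne y)
  have hprod : (Y - i) * (Y + i) = X ^ 3 := by linear_combination hXY - hi
  refine ⟨hz, ?_, ?_⟩
  · intro w
    set v := w.valuation F' with hv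
    have vi : v i = 1 := by
      have h := congrArg v hi
      rw [map_pow, Valuation.map_neg, map_one] at h
      exact (pow_eq_one_iff_of_nonneg (by simp) (by norm_num)).1 h
    by_cases hY1 : 1 < v Y
    · have hY0 : Y ≠ 0 := by
        intro h
        rw [h, map_zero] at hY1
        exact absurd hY1 (by simp)
      have hY2 : v Y ^ 2 = v X ^ 3 := by
        have h1 : v (Y ^ 2 + 1) = v (Y ^ 2) := by
          apply v.map_add_eq_of_lt_left
          rw [map_one, map_pow]
          exact one_lt_pow₀ hY1 (by norm_num)
        have h2 : Y ^ 2 + 1 = X ^ 3 := by linear_combination hXY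
        rw [h2, map_pow, map_pow] at h1
        exact h1.symm
      have hz1 : v (Y - i) = v Y := by
        rw [sub_eq_add_neg]
        apply v.map_add_eq_of_lt_left
        rw [Valuation.map_neg, vi]; exact hY1
      have hvY0 : v Y ≠ 0 := by simpa using hY0
      refine ⟨X / Y, ?_⟩
      rw [map_mul, map_pow, map_div₀, div_pow, ← hY2, hz1]
      field_simp
    · push Not at hY1
      have vz : v (Y - i) ≤ 1 := by
        rw [sub_eq_add_neg]
        exact v_add_le1 v hY1 (by rw [Valuation.map_neg, vi])
      have vz' : v (Y + i) ≤ 1 := v_add_le1 v hY1 vi.le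
      rcases lt_or_eq_of_le vz with hz1 | hz1
      · rcases lt_or_eq_of_le vz' with hz1' | hz1'
        · exfalso
          -- a prime above two
          have hv2 : v 2 < 1 := by
            have h1 : v (2 * i) < 1 := by
              have e : 2 * i = (Y + i) - (Y - i) := by ring
              rw [e]
              exact v.map_sub_lt hz1' hz1
            rwa [map_mul, vi, mul_one] at h1
          have hmem : (2 : 𝓞 F') ∈ w.asIdeal := by
            have := (HeightOneSpectrum.valuation_lt_one_iff_mem (K := F') w (2 : 𝓞 F')).1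
            apply this
            show w.valuation F' (algebraMap (𝓞 F') F' 2) < 1
            rw [map_ofNat]; exact hv2
          let v₀ : HeightOneSpectrum (𝓞 F) := HeightOneSpectrum.under (𝓞 F) w
          have hmem0 : (2 : 𝓞 F) ∈ v₀.asIdeal := by
            show (2 : 𝓞 F) ∈ w.asIdeal.under (𝓞 F)
            rw [Ideal.under_def, Ideal.mem_comap, map_ofNat]
            exact hmem
          have h20 := h2 v₀ hmem0
          haveI : w.asIdeal.LiesOver v₀.asIdeal := ⟨rfl⟩
          have hrel := fun t : F => HeightOneSpectrum.valuation_liesOver (K := F) F' v₀ w t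
          set u := v₀.valuation F with hu
          have hlt : ∀ t : F, v (algebraMap F F' t) < 1 → u t < 1 := by
            intro t ht
            by_contra hcon
            push Not at hcon
            rw [← hrel t] at ht
            exact absurd ht (not_lt.2 (one_le_pow₀ hcon))
          have he0 : v₀.asIdeal.ramificationIdx' w.asIdeal ≠ 0 :=
            Ideal.IsDedekindDomain.ramificationIdx'_ne_zero_of_liesOver w.asIdeal v₀.ne_bot
          have hle : ∀ t : F, v (algebraMap F F' t) ≤ 1 → u t ≤ 1 := by
            intro t ht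
            by_contra hcon
            push Not at hcon
            rw [← hrel t] at ht
            exact absurd ht (not_le.2 (one_lt_pow₀ hcon he0))
          have hux : u x < 1 := by
            apply hlt
            by_contra hcon
            push Not at hcon
            have h4 : v (X ^ 3) < 1 := by
              rw [← hprod, map_mul]
              exact mul_lt_one_of_lt_of_le hz1 vz'
            rw [map_pow] at h4
            exact absurd h4 (not_lt.2 (one_le_pow₀ hcon))
          have huy : u y ≤ 1 := hle y hY1
          have hux3 : u (x ^ 3) ≤ exp (-3) := by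
            rw [map_pow]
            calc u x ^ 3 ≤ (exp (-1)) ^ 3 := by gcongr; exact lt1 hux
              _ = exp (-3) := by rw [← exp_nsmul]; rfl
          have huy1 : u (y + 1) < 1 := by
            by_contra hcon
            push Not at hcon
            have e : (y + 1) ^ 2 = x ^ 3 + 2 * y := by linear_combination hxy
            have h4 : u ((y + 1) ^ 2) < 1 := by
              rw [e]
              refine u.map_add_lt (hux3.trans_lt (exp_neg_lt (by norm_num))) ?_
              rw [map_mul, h20]
              exact mul_lt_one_of_lt_of_le (exp_neg_lt (by norm_num)) huy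
            rw [map_pow] at h4
            exact absurd h4 (not_lt.2 (one_le_pow₀ hcon))
          have h5 : u (2 : F) ≤ exp (-2) := by
            have e : (2 : F) = x ^ 3 + (-((y + 1) ^ 2) + 2 * (y + 1)) := by linear_combination hxy
            rw [e]
            refine u.map_add_le (hux3.trans (by rw [exp_le_exp]; norm_num)) (u.map_add_le ?_ ?_)
            · rw [Valuation.map_neg, map_pow]
              calc u (y + 1) ^ 2 ≤ (exp (-1)) ^ 2 := by gcongr; exact lt1 huy1
                _ = exp (-2) := by rw [← exp_nsmul]; rfl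
            · rw [map_mul, h20]
              calc exp (-1) * u (y + 1) ≤ exp (-1) * exp (-1) := by gcongr; exact lt1 huy1
                _ = exp (-2) := by rw [← exp_add]; rfl
          rw [h20, exp_le_exp] at h5
          norm_num at h5
        · have hvX : v (Y - i) = v X ^ 3 := by
            rw [← map_pow, ← hprod, map_mul, hz1', mul_one]
          have hX0 : v X ≠ 0 := by
            intro h
            rw [h, zero_pow (by norm_num)] at hvX
            exact hz ((map_eq_zero v).1 hvX)
          refine ⟨X⁻¹, ?_⟩
          rw [map_mul, map_pow, map_inv₀, hvX, ← mul_pow, mul_inv_cancel₀ hX0, one_pow]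
      · exact ⟨1, by rw [one_pow, mul_one, hz1]⟩
  · intro w hw a ha
    obtain ⟨r, hr⟩ := card_three w hw
    rw [hr]
    have H : LH (w.valuation F') i r := by
      refine ⟨?_, hi, ?_⟩
      · have h4 := congrArg (w.valuation F') hθ
        rw [map_pow, h3 w hw, Valuation.map_neg, ← exp_nsmul] at h4
        exact h4.symm
      · intro u hu
        rw [← hr]
        exact fermat w u hu
    exact core H hXY (hne y) a ha

end Pool.Agent.W2helper14.TQ
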