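import Pool.Agent.W2helper24.TQ.Stm

/-!
# P_C3: the `3`-part of the discriminant
-/

set_option autoImplicit false

namespace Pool.Agent.W2helper14.TQ

open NumberField IsDedekindDomain
open Pool.Agent.W2helper24.TQ

lemma exists_dvd {F : Type} [Field F] [NumberField F] (I : Ideal (𝓞 F))
    (h : (3 : ℤ) ∣ (I.absNorm : ℤ)) : ∃ P : Ideal (𝓞 F), P.IsMaximal ∧ (3 : 𝓞 F) ∈ P ∧ P ∣ I := by
  obtain ⟨P, hP, h₁, h₂⟩ := Ideal.exists_isMaximal_dvd_of_dvd_absNorm Int.prime_three _ h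
  refine ⟨P, hP, ?_, h₂⟩
  have h4 : (3 : ℤ) ∈ P.under ℤ := by
    rw [h₁]
    exact Ideal.mem_span_singleton_self _
  rw [Ideal.under_def, Ideal.mem_comap] at h4
  simpa using h4

theorem pieceC3 : P_C3 := by
  intro K F _ _ _ _ _ _ hun
  have hK : (discr K).natAbs = 3 := by
    haveI : Fact (Nat.Prime 3) := ⟨by norm_num⟩
    have h := IsCyclotomicExtension.Rat.discr_prime 3 K
    rw [h]
    norm_num
  have h1 := natAbs_discr_eq_absNorm_differentIdeal_mul_natAbs_discr_pow K (𝓞 K) F (𝓞 F)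
  refine ⟨Ideal.absNorm (differentIdeal (𝓞 K) (𝓞 F)), ?_, by rw [h1, hK, mul_comm]⟩
  intro h3
  obtain ⟨P, hP, h4, h5⟩ := exists_dvd (differentIdeal (𝓞 K) (𝓞 F)) (by exact_mod_cast h3)
  have hP0 : P ≠ ⊥ := by
    rintro rfl
    rw [Ideal.mem_bot] at h4
    exact absurd h4 (by norm_num)
  have h6 := hun ⟨P, hP.isPrime, hP0⟩ h4
  haveI : P.IsPrime := hP.isPrime
  exact (dvd_differentIdeal_iff (A := 𝓞 K) (P := P)).1 h5 h6

end Pool.Agent.W2helper14.TQ
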